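import Pool.Agent.H8.VR.Inst

/-!
# Nested equivalence relations are generated by a grammar
-/

set_option autoImplicit false

namespace Pool.Agent.H60.VR

open Pool.Agent.H69.Sp Pool.Agent.H69.Mt Pool.Agent.H8.VR

/-- the operation with the parameters `a`, `b`, `c`, `u` -/
def nop {k : ℕ} (a b c u : Fin (k + 1)) : Op (Fin (k + 1)) Unit :=
  { s := a, t := b, u := u, l := fun i _ _ => c.val ≤ i, r := fun i _ _ => c.val ≤ i,
    f := id, g := id, D := {n | 0 < n} }

theorem mem_ops {k : ℕ} {a b c u : Fin (k + 1)} (h1 : a ≤ c) (h2 : b ≤ c) (h3 : c ≤ u) :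
    nop a b c u ∈ (neG k).ops := by
  simp only [neG, List.mem_flatMap, List.mem_map, List.mem_filter]
  exact ⟨a, List.mem_finRange a, b, List.mem_finRange b, c, List.mem_finRange c, u,
    ⟨List.mem_finRange u, by simp [h1, h2, h3]⟩, rfl⟩

theorem ops_mem {k : ℕ} {o : Op (Fin (k + 1)) Unit} (h : o ∈ (neG k).ops) :
    ∃ a b c u : Fin (k + 1), a ≤ c ∧ b ≤ c ∧ c ≤ u ∧ o = nop a b c u := by
  simp only [neG, List.mem_flatMap, List.mem_map, List.mem_filter] at h
  obtain ⟨a, -, b, -, c, -, u, ⟨-, h⟩, rfl⟩ := h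
  have h' := of_decide_eq_true h
  exact ⟨a, b, c, u, h'.1, h'.2.1, h'.2.2, rfl⟩

/-- a chain of inclusions -/
theorem chain {k : ℕ} {A : Type} {R : ℕ → A → A → Prop}
    (h : ∀ i, i + 1 < k → ∀ a b, R i a b → R (i + 1) a b) {i j : ℕ} (hij : i ≤ j) (hj : j < k)
    {a b : A} (hR : R i a b) : R j a b := by
  induction j, hij using Nat.le_induction with
  | base => exact hR
  | succ j hij ih => exact h j hj a b (ih (by omega))

theorem gen_of {k : ℕ} {A : Type} [Finite A] (P : ℕ → A → Prop) {R : ℕ → A → A → Prop}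
    (hR : NestEq k R) (n : ℕ) : ∀ X : Set A, X.ncard = n → X.Nonempty → ∀ j : Fin (k + 1),
    (∀ i < k, j.val ≤ i → ∀ a ∈ X, ∀ b ∈ X, R i a b) → (neG k).Gen k P R j X (fun _ => ()) := by
  classical
  induction n using Nat.strong_induction_on with
  | _ n ih =>
  intro X hn hX j hj
  by_cases h1 : ∃ a, X = {a}
  · obtain ⟨a, rfl⟩ := h1
    have h2 : (⟨j, (), fun i => ∃ _ : i < k, decide (P i a) = true, fun _ => True⟩ :
        Pt (Fin (k + 1)) Unit) ∈ (neG k).pts := by
      simp only [neG, List.mem_flatMap, List.mem_map]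
      exact ⟨j, List.mem_finRange j, fun i : Fin k => decide (P i a), by simp, rfl⟩
    refine Gram.Gen.pt _ h2 a (fun _ => ()) rfl (fun i hi => ?_) (fun i hi => ?_)
    · simp [hi]
    · simp [(hR.1 i hi).refl a]
  · -- the split
    have key : ∃ c : ℕ, c ≤ j.val ∧ (∀ i < k, c ≤ i → ∀ a ∈ X, ∀ b ∈ X, R i a b) ∧
        ∃ X1 : Set A, X1 ⊆ X ∧ X1.Nonempty ∧ (X \ X1).Nonempty ∧
          ∀ a ∈ X1, ∀ b ∈ X \ X1, ∀ i < k, (R i a b ↔ c ≤ i) ∧ (R i b a ↔ c ≤ i) := by
      have hex : ∃ c : ℕ, c ≤ j.val ∧ ∀ i < k, c ≤ i → ∀ a ∈ X, ∀ b ∈ X, R i a b :=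
        ⟨j.val, le_rfl, hj⟩
      obtain ⟨hc1, hc2⟩ := Nat.find_spec hex
      rcases Nat.eq_zero_or_pos (Nat.find hex) with h0 | h0
      · rw [h0] at hc1 hc2
        obtain ⟨a, ha⟩ := hX
        refine ⟨0, hc1, hc2, {a}, Set.singleton_subset_iff.2 ha, Set.singleton_nonempty a, ?_, ?_⟩
        · by_contra h2
          rw [Set.not_nonempty_iff_eq_empty, Set.diff_eq_empty] at h2
          exact h1 ⟨a, Set.Subset.antisymm h2 (Set.singleton_subset_iff.2 ha)⟩
        · rintro x rfl b hb i hi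
          exact ⟨iff_of_true (hc2 i hi (Nat.zero_le _) _ ha _ hb.1) (Nat.zero_le _),
            iff_of_true (hc2 i hi (Nat.zero_le _) _ hb.1 _ ha) (Nat.zero_le _)⟩
      · obtain ⟨d, hd⟩ := Nat.exists_eq_add_of_lt h0
        rw [zero_add] at hd
        have h2 := Nat.find_min hex (m := d) (by omega)
        rw [hd] at hc1 hc2
        have h3 : ∃ i < k, d ≤ i ∧ ∃ x ∈ X, ∃ y ∈ X, ¬ R i x y := by
          by_contra h3
          push Not at h3
          exact h2 ⟨by omega, fun i hi hdi a ha b hb => h3 i hi hdi a ha b hb⟩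
        obtain ⟨i, hi, hdi, x, hx, y, hy, hxy⟩ := h3
        have hid : i = d := by
          by_contra h4
          exact hxy (hc2 i hi (by omega) x hx y hy)
        subst hid
        have he := hR.1 i hi
        refine ⟨i + 1, hc1, hc2, {z ∈ X | R i x z}, fun z hz => hz.1, ⟨x, hx, he.refl x⟩,
          ⟨y, hy, fun h => hxy h.2⟩, ?_⟩
        rintro a ⟨ha, hxa⟩ b ⟨hb, hb2⟩ i' hi'
        have hxb : ¬ R i x b := fun h => hb2 ⟨hb, h⟩
        have h5 : ∀ i'' ≤ i, ¬ R i'' a b := fun i'' h6 h7 =>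
          hxb (he.trans hxa (chain hR.2 h6 hi h7))
        constructor
        · constructor
          · intro h6
            by_contra h7
            exact h5 i' (by omega) h6
          · intro h6
            exact hc2 i' hi' h6 a ha b hb
        · constructor
          · intro h6
            by_contra h7
            exact h5 i' (by omega) ((hR.1 i' hi').symm h6)
          · intro h6
            exact hc2 i' hi' h6 b hb a ha
    obtain ⟨c, hcj, hc, X1, hX1, hne1, hne2, hcr⟩ := key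
    have hck : c < k + 1 := lt_of_le_of_lt hcj j.isLt
    have hfX : X.Finite := Set.toFinite X
    have hs : X1.ncard + (X \ X1).ncard = n := by
      rw [← hn, ← Set.ncard_union_eq Set.disjoint_sdiff_right (Set.toFinite _) (Set.toFinite _),
        Set.union_diff_cancel hX1]
    have hp1 : 0 < X1.ncard := (Set.ncard_pos (Set.toFinite _)).2 hne1
    have hp2 : 0 < (X \ X1).ncard := (Set.ncard_pos (Set.toFinite _)).2 hne2
    have g1 := ih X1.ncard (by omega) X1 rfl hne1 ⟨c, hck⟩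
      (fun i hi hci a ha b hb => hc i hi hci a (hX1 ha) b (hX1 hb))
    have g2 := ih (X \ X1).ncard (by omega) (X \ X1) rfl hne2 ⟨c, hck⟩
      (fun i hi hci a ha b hb => hc i hi hci a ha.1 b hb.1)
    have hm : nop ⟨c, hck⟩ ⟨c, hck⟩ ⟨c, hck⟩ j ∈ (neG k).ops :=
      mem_ops le_rfl le_rfl (Fin.mk_le_of_le_val hcj)
    have h := Gram.Gen.op (G := neG k) (m := k) (P := P) (R := R) _ hm X1 (X \ X1) (fun _ => ())
      (fun _ => ()) (fun _ => ()) g1 g2 Set.disjoint_sdiff_right
      (by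
        change 0 < Nat.pair _ _
        exact lt_of_lt_of_le hp1 (Nat.left_le_pair _ _))
      (fun a ha b hb i hi => hcr a ha b hb i hi) (fun _ _ => rfl) (fun _ _ => rfl)
    rw [Set.union_diff_cancel hX1] at h
    exact h

theorem of_gen {k : ℕ} {A : Type} {P : ℕ → A → Prop} {R : ℕ → A → A → Prop} {s : Fin (k + 1)}
    {X : Set A} {c : A → Unit} (h : (neG k).Gen k P R s X c) :
    (∀ i < k, (∀ a ∈ X, R i a a) ∧ (∀ a ∈ X, ∀ b ∈ X, R i a b → R i b a) ∧
      ∀ a ∈ X, ∀ b ∈ X, ∀ d ∈ X, R i a b → R i b d → R i a d) ∧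
    (∀ i, i + 1 < k → ∀ a ∈ X, ∀ b ∈ X, R i a b → R (i + 1) a b) ∧
    ∀ i < k, s.val ≤ i → ∀ a ∈ X, ∀ b ∈ X, R i a b := by
  induction h with
  | pt x hx a c hc hP hR =>
    simp only [neG, List.mem_flatMap, List.mem_map] at hx
    obtain ⟨s, -, y, -, rfl⟩ := hx
    have h1 : ∀ i < k, R i a a := fun i hi => (hR i hi).2 trivial
    refine ⟨fun i hi => ⟨?_, ?_, ?_⟩, ?_, ?_⟩
    · rintro _ rfl
      exact h1 i hi
    · rintro _ rfl _ rfl _
      exact h1 i hi
    · rintro _ rfl _ rfl _ rfl _ _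
      exact h1 i hi
    · rintro i hi _ rfl _ rfl _
      exact h1 _ hi
    · rintro i hi _ _ rfl _ rfl
      exact h1 i hi
  | op o ho X Y c c1 c2 h1 h2 hd hD hR hX hY ih1 ih2 =>
    obtain ⟨a, b, e, u, hae, hbe, heu, rfl⟩ := ops_mem ho
    have hR' : ∀ x ∈ X, ∀ y ∈ Y, ∀ i < k, (R i x y ↔ e.val ≤ i) ∧ (R i y x ↔ e.val ≤ i) := hR
    obtain ⟨i1, i2, i3⟩ := ih1
    obtain ⟨j1, j2, j3⟩ := ih2
    have i3' : ∀ i < k, e.val ≤ i → ∀ x ∈ X, ∀ y ∈ X, R i x y := fun i hi h =>
      i3 i hi (le_trans hae h)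
    have j3' : ∀ i < k, e.val ≤ i → ∀ x ∈ Y, ∀ y ∈ Y, R i x y := fun i hi h =>
      j3 i hi (le_trans hbe h)
    have full : ∀ i < k, e.val ≤ i → ∀ x ∈ X ∪ Y, ∀ y ∈ X ∪ Y, R i x y := by
      rintro i hi h x (hx | hx) y (hy | hy)
      · exact i3' i hi h x hx y hy
      · exact (hR' x hx y hy i hi).1.2 h
      · exact (hR' y hy x hx i hi).2.2 h
      · exact j3' i hi h x hx y hy
    refine ⟨fun i hi => ?_, ?_, fun i hi h => full i hi (le_trans (show e.val ≤ u.val from heu) h)⟩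
    · by_cases h : e.val ≤ i
      · exact ⟨fun x hx => full i hi h x hx x hx, fun x hx y hy _ => full i hi h y hy x hx,
          fun x hx y _ z hz _ _ => full i hi h x hx z hz⟩
      · have n1 : ∀ x ∈ X, ∀ y ∈ Y, ¬ R i x y := fun x hx y hy h' => h ((hR' x hx y hy i hi).1.1 h')
        have n2 : ∀ x ∈ X, ∀ y ∈ Y, ¬ R i y x := fun x hx y hy h' => h ((hR' x hx y hy i hi).2.1 h')
        obtain ⟨r1, s1, t1⟩ := i1 i hi
        obtain ⟨r2, s2, t2⟩ := j1 i hi
        refine ⟨?_, ?_, ?_⟩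
        · rintro x (hx | hx)
          · exact r1 x hx
          · exact r2 x hx
        · rintro x (hx | hx) y (hy | hy) hxy
          · exact s1 x hx y hy hxy
          · exact absurd hxy (n1 x hx y hy)
          · exact absurd hxy (n2 y hy x hx)
          · exact s2 x hx y hy hxy
        · rintro x (hx | hx) y (hy | hy) z (hz | hz) hxy hyz
          · exact t1 x hx y hy z hz hxy hyz
          · exact absurd hyz (n1 y hy z hz)
          · exact absurd hxy (n1 x hx y hy)
          · exact absurd hxy (n1 x hx y hy)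
          · exact absurd hxy (n2 y hy x hx)
          · exact absurd hxy (n2 y hy x hx)
          · exact absurd hyz (n2 z hz y hy)
          · exact t2 x hx y hy z hz hxy hyz
    · rintro i hi x (hx | hx) y (hy | hy) hxy
      · exact i2 i hi x hx y hy hxy
      · exact (hR' x hx y hy (i + 1) hi).1.2
          (le_trans ((hR' x hx y hy i (by omega)).1.1 hxy) (Nat.le_succ i))
      · exact (hR' y hy x hx (i + 1) hi).2.2
          (le_trans ((hR' y hy x hx i (by omega)).2.1 hxy) (Nat.le_succ i))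
      · exact j2 i hi x hx y hy hxy

theorem pf_NE : T_NE := by
  intro k A _ _ P R
  constructor
  · intro h
    refine ⟨fun _ => (), gen_of P h _ Set.univ rfl Set.univ_nonempty (Fin.last k) ?_⟩
    intro i hi hk
    rw [Fin.val_last] at hk
    omega
  · rintro ⟨c, hc⟩
    obtain ⟨h1, h2, -⟩ := of_gen hc
    refine ⟨fun i hi => ?_, fun i hi a b => h2 i hi a (Set.mem_univ a) b (Set.mem_univ b)⟩
    obtain ⟨r, s, t⟩ := h1 i hi
    exact ⟨fun a => r a (Set.mem_univ a), fun {a b} => s a (Set.mem_univ a) b (Set.mem_univ b),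
      fun {a b d} => t a (Set.mem_univ a) b (Set.mem_univ b) d (Set.mem_univ d)⟩

end Pool.Agent.H60.VR
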