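import Pool.Agent.H8.VR.Inst

/-!
# The set of the positive numbers is a spectrum, and so is its complement
-/

set_option autoImplicit false

namespace Pool.Agent.H60.VR

open Pool.Agent.H69.Sp Pool.Agent.H69.Mt Pool.Agent.H8.VR

theorem pf_PO : T_PO := by
  refine ⟨all_isSpectrum, ?_⟩
  have h : UltPer (∅ : Set ℕ) := ⟨0, 1, by norm_num, fun _ _ => by simp⟩
  have := h.isSpectrum
  have h2 : posCompl {n | 0 < n} = (∅ : Set ℕ) := by
    ext n
    simp only [posCompl, Set.mem_setOf_eq, Set.mem_empty_iff_false, iff_false]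
    rintro ⟨h1, h3⟩
    exact h3 h1
  rw [h2]
  simpa using this

end Pool.Agent.H60.VR
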